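import Pool.Agent.P8H28.OP.FinC

/-!
# Half of the Tate classes on one explicit power decides the Tate and Hodge conjectures

Let `X` be an abelian variety of dimension `g` over an algebraic closure `k` of a field finitely
generated over `ℚ`, with `k ⊂ ℂ`, and let `b = 4 ^ g` be the sum of its Betti numbers. For a natural
number `n` let `a n` and `t n` be the dimensions of the spaces spanned by the classes of algebraic cycles
and by the Tate classes (of all codimensions) on `X ^ (n + 1)`. Let `N = 2` if `X` has no simple
factors of type IV (the centre of the algebra of the endomorphisms of the Hodge structure `H^1(X)` is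
self-adjoint for the polarisation), and `N = max(4, 2 g ^ (2 g))` in general.

Theorem. The Tate conjecture and the Hodge conjecture are true for ALL powers of `X`, or one of the
following is true:

(a) `t n ≥ (2 - C log (n + 2) / n) a n` for ALL `n ≥ 1`, `C = 9 (N + 3) b ^ (N + 7)`;

(b) `t n ≥ (2 - 56 N log (2 b) / log (n + 1)) a n` for ALL `n ≥ 1`.

So, if on ONE power `X ^ (n + 1)` with `log (n + 1) > 1429 N log (2 b)` 51 percent of the Tate classes are
algebraic, then the Tate conjecture and the Hodge conjecture are true for all powers of `X`. Case (b)
occurs only if the numerical and the homological equivalence on a power of `X` are different, which is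
impossible by a theorem of Lieberman (it is not used in the proof); so already
`n > 26 C log (n + 2)` is sufficient.

The theorems of Deligne (Hodge classes are Tate classes), Faltings (semisimplicity, and the
endomorphisms of `H^1`) and Pink (the weak Hodge cocharacters generate) are hypotheses, and, only if `X`
has simple factors of type IV, the theorem of Serre, Vasiu and Ullmo-Yafaev on the centres.

The proof. If the Mumford-Tate conjecture is false for `X`, then by the theorem `OnePercent`
`(2 - 42 b ^ 9 log (n + 2) / n) h n ≤ t n`, where `h n` is the number of Hodge classes. Suppose that the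
Mumford-Tate conjecture is true, and that the Hodge conjecture is false for `X ^ N` (if it is true, then all
is proved by the theorem `TateFromMiddle`). Let `M n` be the space of the Hodge classes on
`X ^ (n + 1)` which are orthogonal to all algebraic classes, and `Z n ⊂ M n` the space of the numerically
trivial algebraic classes. Since the intersection form on the Hodge classes is perfect,
`h n = a n + dim (M n)`. If `Z ≠ M` for `X ^ N`, then one step of a chain of spaces which are stable
under the algebraic correspondences yields an idempotent algebraic correspondence, and it contributes to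
`dim (M n) - dim (Z n)` at least the rank `a n - dim (Z n)` of the intersection form on the algebraic
classes, minus an error term; so `h n ≥ a n + dim (Z n) + (a n - dim (Z n)) - ... = 2 a n - ...`. If
`Z = M` for `X ^ N`, then `Z ≠ 0`, and by the one percent law for the conjecture D the rank
`a n - dim (Z n)` is small, and again `h n ≥ a n + dim (Z n) = 2 a n - ...`.
-/

open CategoryTheory AlgebraicGeometry

universe u

namespace Pool.Agent.Results.MP_640417_ag.HalfOnOnePower

open Pool.Agent.H914 Pool.Agent.H914.VarClass Pool.Agent.H914.VarClass.Obj
open Pool.Agent.Y121.AHS (HodgeTheory)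
open Pool.Agent.N996.FP (RForm IsPolarisation OfAbelianType SelfAdjointCentre)
open Pool.Agent.P8H28.SE Pool.Agent.P8H28.OP

variable {k : Type u} [Field k] {𝒱 : VarClass k} {ops : CycleOps 𝒱}

/-- **Half of the Tate classes on one explicit power decides the Tate and Hodge conjectures.** -/
theorem result (T : HodgeTheory ops) (X : 𝒱.Obj) (ψ : RForm T.W X)
    (hψ : IsPolarisation T X ψ) (hX : OfAbelianType T X) (ℓ : ℕ) [Fact ℓ.Prime]
    [Algebra T.W.K ℚ_[ℓ]] (G : Galois (powersL T ℚ_[ℓ] X) X.dim)
    (deligne : ∀ n j, extF (hodgeClasses T X) ℚ_[ℓ] n j ⊆ tate G n j)
    (faltings : VirtSemisimple (G.ρ 0))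
    (faltings' : Combs ℚ_[ℓ] (tateK G (2 * X.dim - 1) 1) (extF (hodgeClasses T X) ℚ_[ℓ] 1 X.dim))
    (pink : WeakHodgeGenerate G (AlgebraicClosure ℚ_[ℓ]))
    (centres : SelfAdjointCentre T X ψ ∨
      CentresAgree G (extF (hodgeClasses T X) ℚ_[ℓ]) (AlgebraicClosure ℚ_[ℓ]))
    (N : ℕ) (hN : (SelfAdjointCentre T X ψ ∧ N = 2) ∨ N = max 4 (2 * X.dim ^ (2 * X.dim))) :
    (∀ n j : ℕ, Spans (tate G) (extF (algClasses T.W X) ℚ_[ℓ]) n j ∧
      hodgeClasses T X n j ⊆ algClasses T.W X n j) ∨
    AtMostHalf (count (algClasses T.W X)) (count (tate G)) N (betti T.W X) :=
  half_ab T X ψ hψ hX ℓ G deligne faltings faltings' pink centres N hN _ rfl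

end Pool.Agent.Results.MP_640417_ag.HalfOnOnePower
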