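import Pool.Agent.P8H28.SE.Bridge

/-!
# The middle cohomology of an abelian variety decides the Mumford-Tate conjecture

Let `X` be an abelian variety of dimension `g` over an algebraic closure `k` of a field finitely
generated over `ℚ`, with `k ⊂ ℂ`. The following theorems are known, and they are hypotheses below:
Hodge classes on abelian varieties are Tate classes (Deligne), the cohomology of `X` is a semisimple
representation of the Galois group and the Galois endomorphisms of `H^1(X)` come from endomorphisms
of `X` (Faltings), the connected algebraic monodromy group of `X` is generated by weak Hodge
cocharacters (Pink). If `X` has simple factors of type IV, we use also that the monodromy group and the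
Mumford-Tate group have the same centre, up to finite index (Serre, Vasiu, Ullmo-Yafaev).

**If every Tate class in the Künneth component `H^g(X) ⊗ H^g(X)` of `H^(2g)(X × X)` is a
`ℚ_ℓ`-linear combination of Hodge classes, then every Tate class on every power of `X` is a
`ℚ_ℓ`-linear combination of Hodge classes.** In other words: if the endomorphisms of the single Galois
representation `H^g(X, ℚ_ℓ)` (over all finite extensions of the base field) are combinations of
endomorphisms of the Hodge structure `H^g(X, ℚ)`, then the Mumford-Tate conjecture holds for
`X`.

The proof. Let `V = H^1(X)`, with coefficients extended to an algebraic closure of `ℚ_ℓ`; the operators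
on `V` act on the cohomology of the powers of `X` by derivations. Let `g` be the Lie algebra of the
operators which multiply the Tate classes of codimension `j` by `j m` for a number `m`, and let `h` be
the Lie algebra defined in the same way by the Hodge classes. We have to show that `g = h`.

1. The class on `X × X` of an operator on the middle cohomology which commutes with the Galois group
   (of a finite extension) is a Tate class in the Künneth component, so it is a combination of Hodge
   classes, and the operator commutes with `h`. By semisimplicity, and since the weak Hodge operators
   generate, the subspaces of the middle cohomology which are stable under the weak Hodge operators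
   are stable under `h`.
2. Let `p` be a weak Hodge operator, an idempotent operator on `V`, of rank `dim X`. The product `u` of
   a basis of `p V` is in the middle cohomology. It is killed by the operators in `h` of degree `1`
   for the grading of `h` given by the bracket with `p`, and is multiplied by scalars by the operators
   of degree `0`. If `x` is in `h` and has the degree `-1`, then by step 1 `x u` belongs to the
   `g`-module generated by `u`, so `x u = y u` for some `y` in `g` of degree `-1`. Since `u` is the
   product of a basis of `p V`, this implies `x = y`. So `[p, h]` is contained in `g`.
3. The trace form of `V` is nondegenerate on `g`: the elements of its radical are nilpotent, since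
   `g` contains the replicas of its elements, and Engel's theorem applies. So every `x` in `h` is the sum
   of an element of `g` and an operator `z` orthogonal to `g`. By step 2 `z` commutes with the weak
   Hodge operators `p`, therefore with the Galois group (of a finite extension): the graph of `z` is a
   stable subspace of `H^1(X × X)`.
4. `z` is a combination of endomorphisms of the Hodge structure, and `z` is in `h`; so `z` is in the
   centre of their algebra. If the centre is self-adjoint, then `z` is a scalar, since it multiplies
   the class of the polarisation by a number, and so `z` is in `g`. In general `z` is in `g` by the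
   theorem on the centres.
-/

open CategoryTheory AlgebraicGeometry

universe u

namespace Pool.Agent.Results.MP_640417_ag.MiddleDecides

open Pool.Agent.H914 Pool.Agent.H914.VarClass Pool.Agent.H914.VarClass.Obj
open Pool.Agent.Y121.AHS (HodgeTheory)
open Pool.Agent.N996.FP (RForm IsPolarisation OfAbelianType SelfAdjointCentre)
open Pool.Agent.P8H28.SE

variable {k : Type u} [Field k] {𝒱 : VarClass k} {ops : CycleOps 𝒱}

/-- **The middle cohomology decides.** The index `n` stands for the power `X ^ (n + 1)`. -/
theorem result (T : HodgeTheory ops) (X : 𝒱.Obj) (ψ : RForm T.W X)
    (hψ : IsPolarisation T X ψ) (hX : OfAbelianType T X) (ℓ : ℕ) [Fact ℓ.Prime]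
    [Algebra T.W.K ℚ_[ℓ]] (G : Galois (powersL T ℚ_[ℓ] X) X.dim)
    (deligne : ∀ n j, extF (hodgeClasses T X) ℚ_[ℓ] n j ⊆ tate G n j)
    (faltings : VirtSemisimple (G.ρ 0))
    (faltings' : Combs ℚ_[ℓ] (tateK G (2 * X.dim - 1) 1) (extF (hodgeClasses T X) ℚ_[ℓ] 1 X.dim))
    (pink : WeakHodgeGenerate G (AlgebraicClosure ℚ_[ℓ]))
    (centres : SelfAdjointCentre T X ψ ∨
      CentresAgree G (extF (hodgeClasses T X) ℚ_[ℓ]) (AlgebraicClosure ℚ_[ℓ]))
    (middle : Combs ℚ_[ℓ] (tateK G X.dim X.dim) (extF (hodgeClasses T X) ℚ_[ℓ] 1 X.dim)) :
    ∀ n j : ℕ, Spans (tate G) (extF (hodgeClasses T X) ℚ_[ℓ]) n j :=
  Pool.Agent.P8H28.SE.middle T X ψ hψ hX ℓ G deligne faltings faltings' pink centres middle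

end Pool.Agent.Results.MP_640417_ag.MiddleDecides
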