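import Pool.Agent.P8H28.OP.FinA

/-!
# One percent of the Tate classes on one explicit power decides the Mumford-Tate conjecture

Let `X` be a smooth projective variety over an algebraic closure `k` of a field finitely generated
over `ℚ`, with `k ⊂ ℂ`, and suppose that the Hodge classes on the powers of `X` are Tate classes. This is
Deligne's theorem if `X` is an abelian variety. For a natural number `n` let `h n` and `t n` be the
numbers of linearly independent Hodge classes and Tate classes (of all codimensions) on `X ^ (n + 1)`,
so that `h n ≤ t n`, and let `b` be the sum of the Betti numbers of `X`.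

Theorem.

1. For every `κ`: all Tate classes on `X ^ (κ + 1)` are `ℚ_ℓ`-linear combinations of Hodge classes, or
   for ALL `L, n ≥ 1`

     `(L - C log (n + 2) / n) h n ≤ t n`, `C = 3 L (L (κ + 1) + 3) b ^ (L (κ + 1) + 5)`,

   and for ALL `n`

     `h n / t n ≤ 56 (κ + 1) log (2 b) / log (n + 1)`.

2. Let `X` be an abelian variety of dimension `g`, so that `b = 4 ^ g`. Then all Tate classes on all
   powers of `X` are combinations of Hodge classes, and the Mumford-Tate conjecture is true for `X`, or
   the inequalities of (1) with `κ = 1` hold for all `L, n ≥ 1`.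

So, if one percent of the Tate classes on ONE power `X ^ (n + 1)` of the abelian variety are
combinations of Hodge classes, where `log (n + 1) > 11200 log (2 b)`, then the Mumford-Tate conjecture
is true for `X`; and it is true if `h n ≥ f n * t n` for infinitely many `n`, where
`f n * log n → ∞` (for instance `f n = 1 / log log n`).

The known theorems of Deligne (Hodge classes are Tate classes), Faltings (semisimplicity, and the
endomorphisms of `H^1`) and Pink (the weak Hodge cocharacters generate) are hypotheses in (2), and, only
if `X` has simple factors of type IV, the theorem of Serre, Vasiu and Ullmo-Yafaev on the centres.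

The proof.

(a) Let `u` be a Tate class on `X ^ (κ + 1)` which is not a combination of Hodge classes, and let `E t` be
the family of all classes obtained from the external powers `u ⊗ ... ⊗ u` with at most `t` factors by
correspondences given by combinations of Hodge classes. If the external power with `t + 1` factors is in
`E t`, then all external powers of `u` are in `E t`. Embed `ℚ_ℓ` into `ℂ`. The operator `g` with the
eigenvalue `2 ^ (p - q)` on `H^(p,q)` commutes with the Hodge correspondences, so one nonzero
polynomial in `g` annihilates all external powers of `u`; by comparison with the pairings with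
`y ⊗ ... ⊗ y`, where `y` is of type `(p, q)` and `p ≠ q`, the class `u` is of type `(j, j)`. This is so
for all embeddings of `ℚ_ℓ`, so `u` is a combination of Hodge classes, a contradiction. Therefore
`E 0, E 1, E 2, ...` is a strictly increasing chain.

(b) Each step of the chain yields an idempotent Hodge correspondence on a power of `X`, and contributes to
the Tate classes on `X ^ (n + 1)` at least `h n` minus an error term. The error is bounded by means of the
logarithmic convexity of the numbers of Hodge classes on `X ^ i × X ^ i` and of their growth (at
least `b ^ (2 i) / (i + 1) ^ (b ^ 2)`).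

(c) For an abelian variety the case `κ = 1` is sufficient by the theorem `MiddleDecides`.
-/

open CategoryTheory AlgebraicGeometry

universe u

namespace Pool.Agent.Results.MP_640417_ag.OnePercent

open Pool.Agent.H914 Pool.Agent.H914.VarClass Pool.Agent.H914.VarClass.Obj
open Pool.Agent.Y121.AHS (HodgeTheory)
open Pool.Agent.N996.FP (RForm IsPolarisation OfAbelianType SelfAdjointCentre)
open Pool.Agent.P8H28.SE Pool.Agent.P8H28.OP

variable {k : Type u} [Field k] {𝒱 : VarClass k} {ops : CycleOps 𝒱}

/-- **One percent of the Tate classes on one explicit power decides the Mumford-Tate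
conjecture.** -/
theorem result (T : HodgeTheory ops) (X : 𝒱.Obj) (ℓ : ℕ) [Fact ℓ.Prime]
    [Algebra T.W.K ℚ_[ℓ]] (G : Galois (powersL T ℚ_[ℓ] X) X.dim)
    (deligne : ∀ n j, extF (hodgeClasses T X) ℚ_[ℓ] n j ⊆ tate G n j)
    (b : ℕ) (hb : b = Module.finrank T.W.K (T.W.H X)) :
    (∀ κ : ℕ, (∀ j, Spans (tate G) (extF (hodgeClasses T X) ℚ_[ℓ]) κ j) ∨
      Sparse (count (hodgeClasses T X)) (count (tate G)) κ b) ∧
    (∀ ψ : RForm T.W X, IsPolarisation T X ψ → OfAbelianType T X →
      VirtSemisimple (G.ρ 0) →
      Combs ℚ_[ℓ] (tateK G (2 * X.dim - 1) 1) (extF (hodgeClasses T X) ℚ_[ℓ] 1 X.dim) →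
      WeakHodgeGenerate G (AlgebraicClosure ℚ_[ℓ]) →
      (SelfAdjointCentre T X ψ ∨
        CentresAgree G (extF (hodgeClasses T X) ℚ_[ℓ]) (AlgebraicClosure ℚ_[ℓ])) →
      (∀ n j : ℕ, Spans (tate G) (extF (hodgeClasses T X) ℚ_[ℓ]) n j) ∨
        Sparse (count (hodgeClasses T X)) (count (tate G)) 1 b) := by
  obtain ⟨τ⟩ := exists_emb ℓ
  exact ⟨law T X ℚ_[ℓ] τ G deligne b hb, fun ψ hψ hX faltings faltings' pink centres =>
    law_ab T X ψ hψ hX ℓ G deligne faltings faltings' pink centres b hb⟩

end Pool.Agent.Results.MP_640417_ag.OnePercent
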