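import Pool.Agent.P8H28.SE.Bridge

/-!
# The Tate conjecture for all powers of an abelian variety

Let `X` be an abelian variety of dimension `g` over an algebraic closure `k` of a field finitely
generated over `ℚ`, with `k ⊂ ℂ`. As in `MiddleDecides`, the known theorems of Deligne, Faltings and
Pink, and (if `X` has simple factors of type IV) the theorem on the centres, are hypotheses.

**Suppose that the Tate conjecture holds for the Künneth component `H^g(X) ⊗ H^g(X)` of
`H^(2g)(X × X)`, and that the Hodge conjecture holds for the one power `X ^ N`. Then the Tate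
conjecture and the Hodge conjecture hold for all powers of `X`.** Here `N = 2` if the centre of the
algebra of the endomorphisms of the Hodge structure `H^1(X)` is self-adjoint for the polarisation
(there are no simple factors of type IV), and `N = max(4, 2 g ^ (2 g))` in general.

In particular the Tate conjecture for the one power `X ^ N` implies the Tate conjecture and the Hodge
conjecture for all powers: by Deligne's theorem it implies the Hodge conjecture for `X ^ N`, and it
implies the Tate conjecture for `X × X`.

The proof: by the Tate conjecture for the Künneth component its Tate classes are combinations of Hodge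
classes, so by the theorem `MiddleDecides` all Tate classes on all powers are combinations of Hodge
classes. The Hodge classes are algebraic by the theorem `MP_802513_ag/SquareTheorem`.
-/

open CategoryTheory AlgebraicGeometry

universe u

namespace Pool.Agent.Results.MP_640417_ag.TateFromMiddle

open Pool.Agent.H914 Pool.Agent.H914.VarClass Pool.Agent.H914.VarClass.Obj
open Pool.Agent.Y121.AHS (HodgeTheory)
open Pool.Agent.N996.FP (RForm IsPolarisation OfAbelianType SelfAdjointCentre)
open Pool.Agent.P8H28.SE

variable {k : Type u} [Field k] {𝒱 : VarClass k} {ops : CycleOps 𝒱}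

/-- **The Tate conjecture for all powers.** The index `n` stands for the power `X ^ (n + 1)`. -/
theorem result (T : HodgeTheory ops) (X : 𝒱.Obj) (ψ : RForm T.W X)
    (hψ : IsPolarisation T X ψ) (hX : OfAbelianType T X) (ℓ : ℕ) [Fact ℓ.Prime]
    [Algebra T.W.K ℚ_[ℓ]] (G : Galois (powersL T ℚ_[ℓ] X) X.dim)
    (deligne : ∀ n j, extF (hodgeClasses T X) ℚ_[ℓ] n j ⊆ tate G n j)
    (faltings : VirtSemisimple (G.ρ 0))
    (faltings' : Combs ℚ_[ℓ] (tateK G (2 * X.dim - 1) 1) (extF (hodgeClasses T X) ℚ_[ℓ] 1 X.dim))
    (pink : WeakHodgeGenerate G (AlgebraicClosure ℚ_[ℓ]))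
    (centres : SelfAdjointCentre T X ψ ∨
      CentresAgree G (extF (hodgeClasses T X) ℚ_[ℓ]) (AlgebraicClosure ℚ_[ℓ]))
    (N : ℕ) (hN : (SelfAdjointCentre T X ψ ∧ N = 2) ∨ N = max 4 (2 * X.dim ^ (2 * X.dim)))
    (hodge : ∀ j, hodgeClasses T X (N - 1) j ⊆ algClasses T.W X (N - 1) j)
    (tateM : Combs ℚ_[ℓ] (tateK G X.dim X.dim) (extF (algClasses T.W X) ℚ_[ℓ] 1 X.dim)) :
    ∀ n j : ℕ, Spans (tate G) (extF (algClasses T.W X) ℚ_[ℓ]) n j ∧
      hodgeClasses T X n j ⊆ algClasses T.W X n j :=
  fun n j => tateAll T X ψ hψ hX ℓ G deligne faltings faltings' pink centres N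
    (hN.imp_right Or.inr) hodge tateM n j

end Pool.Agent.Results.MP_640417_ag.TateFromMiddle
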